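import Pool.Agent.H20.RFZ.B2Base

/-!
# Board `rfz_modules`, row B2: tubes along a chord
-/

set_option autoImplicit false

open Filter Topology

namespace Pool.Agent.H20.RFZ

open Pool.Agent.H98.RFZ Pool.Agent.H98.RFC

/-- An almost straight path crosses many tubes that depend only on the cells of its endpoints
(`2 ≤ K'`). -/
def B_B2k : Prop := ∀ (R : ℕ) (J : Site → ℝ), IsCoupling R J → ∀ (φ : ℝ) (p : Site)
  (M K' n A' u : ℕ), 0 < φ → φ ≤ 1 → p ≠ 0 → 100 / φ ≤ (M : ℝ) → 10 ≤ M → 2 ≤ K' →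
  n * (M + 2 * K' + 10) + K' + 100 ≤ A' → 200 * R + 200 ≤ u →
  ∀ P₀ P₁ : Site, P₀ ∈ box (9 * A') → P₁ ∈ box (9 * A') →
    ((A' : ℤ) - 2) ^ 2 ≤ nsq (P₁ - P₀) →
  ∃ y v : Fin n → Site, (∀ m, InVM M (v m)) ∧
    (∀ m m', m ≠ m' → Disjoint (tube (y m) (y m + sm u (v m)) (K' * u))
      (tube (y m') (y m' + sm u (v m')) (K' * u))) ∧
    ∀ (h : Site → ℝ) (k : ℕ) (x : ℕ → Site),
      IsPath J (Ds R J h (eb 0 (10 * (A' * u)))) k x →
      (∀ i, i ≤ k → x i ∈ eb 0 (8 * (A' * u))) →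
      ((A' * u : ℕ) : ℤ) ^ 2 ≤ nsq (x k - x 0) →
      2 * nsq (x 0 - sm u P₀) ≤ (u : ℤ) ^ 2 → 2 * nsq (x k - sm u P₁) ≤ (u : ℤ) ^ 2 →
      (∀ i, i ≤ k → nearSeg (x 0) (x k) (x i) ((u : ℝ) / 2)) →
      2 * φ * |(gdot p (x k - x 0) : ℝ)| ≤ |(fdet p (x k - x 0) : ℝ)| →
      (∀ m, φ * |(gdot p (v m) : ℝ)| ≤ |(fdet p (v m) : ℝ)|) ∧
      ∀ m, Crs R J h u (v m) K' (y m)

/-- distance to a scaled site -/
lemma half_dist {x P : Site} {u : ℕ} (h : 2 * nsq (x - sm u P) ≤ (u : ℤ) ^ 2) :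
    ‖cc x - ((u : ℝ) : ℂ) * cc P‖ ≤ 0.7072 * u := by
  have h1 : (2 : ℝ) * (nsq (x - sm u P) : ℝ) ≤ (u : ℝ) ^ 2 := by exact_mod_cast h
  rw [nsq_eq, cc_sub, cc_sm] at h1
  have h2 : ‖cc x - ((u : ℝ) : ℂ) * cc P‖ ^ 2 ≤ (0.7072 * u) ^ 2 := by nlinarith [sq_nonneg (u : ℝ)]
  exact (pow_le_pow_iff_left₀ (norm_nonneg _) (by positivity) two_ne_zero).1 h2

/-- size of a step -/
lemma step_norm {R : ℕ} {J : Site → ℝ} (hJ : IsCoupling R J) {a b : Site} {u : ℕ}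
    (hu : 200 * R + 200 ≤ u) (h : 0 < J (b - a)) : ‖cc b - cc a‖ ≤ 0.0072 * u := by
  have hb : b - a ∈ box R := by
    by_contra hc
    rw [hJ.range _ hc] at h
    exact lt_irrefl _ h
  obtain ⟨h1, h2⟩ := mem_box'.1 hb
  have h1' : |((b - a).1 : ℝ)| ≤ R := by exact_mod_cast h1
  have h2' : |((b - a).2 : ℝ)| ≤ R := by exact_mod_cast h2
  have hur : (200 : ℝ) * R ≤ u := by
    have : 200 * R ≤ u := by omega
    exact_mod_cast this
  have hR : (0 : ℝ) ≤ R := Nat.cast_nonneg R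
  rw [← cc_sub]
  have h3 : ‖cc (b - a)‖ ^ 2 ≤ (0.0072 * u) ^ 2 := by
    rw [Complex.sq_norm, Complex.normSq_apply]
    simp only [cc]
    have e1 : ((b - a).1 : ℝ) * ((b - a).1 : ℝ) ≤ R * R := by
      rw [← abs_mul_abs_self ((b - a).1 : ℝ)]
      exact mul_le_mul h1' h1' (abs_nonneg _) hR
    have e2 : ((b - a).2 : ℝ) * ((b - a).2 : ℝ) ≤ R * R := by
      rw [← abs_mul_abs_self ((b - a).2 : ℝ)]
      exact mul_le_mul h2' h2' (abs_nonneg _) hR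
    have e3 : (200 * (R : ℝ)) * (200 * R) ≤ u * u := mul_le_mul hur hur (by positivity) (by positivity)
    nlinarith
  exact (pow_le_pow_iff_left₀ (norm_nonneg _) (by positivity) two_ne_zero).1 h3

/-- the distance of the points of the path to the line through the two cells -/
lemma line_dist {P e : ℂ} {D u : ℝ} (he : ‖e‖ = 1) (hu : 0 < u) {X0 Xk Xi : ℂ} {t : ℝ}
    (h0 : 0 ≤ t) (h1 : t ≤ 1) (hX0 : ‖X0 - (u : ℂ) * P‖ ≤ 0.7072 * u)
    (hXk : ‖Xk - (u : ℂ) * pt P e D‖ ≤ 0.7072 * u)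
    (hXi : ‖Xi - (X0 + (t : ℂ) * (Xk - X0))‖ ≤ u / 2) :
    ‖Xi - (u : ℂ) * pt P e (((Xi / (u : ℂ) - P) * (starRingEnd ℂ) e).re)‖ ≤ 1.2072 * u := by
  have huc : (u : ℂ) ≠ 0 := by exact_mod_cast hu.ne'
  have hsc : ∀ Z : ℂ, ‖Xi - (u : ℂ) * Z‖ = u * ‖Xi / (u : ℂ) - Z‖ := by
    intro Z
    have e1 : Xi - (u : ℂ) * Z = (u : ℂ) * (Xi / (u : ℂ) - Z) := by field_simp
    rw [e1, norm_mul, Complex.norm_real, Real.norm_eq_abs, abs_of_pos hu]
  have h2 : ‖Xi - (u : ℂ) * pt P e (t * D)‖ ≤ 1.2072 * u := by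
    have e1 : Xi - (u : ℂ) * pt P e (t * D) = (Xi - (X0 + (t : ℂ) * (Xk - X0))) +
        (((1 : ℂ) - t) * (X0 - (u : ℂ) * P) + (t : ℂ) * (Xk - (u : ℂ) * pt P e D)) := by
      simp only [pt]
      push_cast
      ring
    rw [e1]
    refine (norm_add_le _ _).trans ?_
    have h3 := conv_norm h0 h1 hX0 hXk
    linarith
  have h3 := proj_min (z := Xi / (u : ℂ) - P) he (t * D)
  rw [hsc] at h2 ⊢
  have e2 : Xi / (u : ℂ) - pt P e (((Xi / (u : ℂ) - P) * (starRingEnd ℂ) e).re) =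
      (Xi / (u : ℂ) - P) - ((((Xi / (u : ℂ) - P) * (starRingEnd ℂ) e).re : ℝ) : ℂ) * e := by
    simp only [pt]; ring
  have e3 : Xi / (u : ℂ) - pt P e (t * D) = (Xi / (u : ℂ) - P) - ((t * D : ℝ) : ℂ) * e := by
    simp only [pt]; ring
  rw [e2]
  rw [e3] at h2
  exact (mul_le_mul_of_nonneg_left h3 hu.le).trans h2


lemma norm_u {u : ℝ} (hu : 0 < u) (Z : ℂ) : ‖(u : ℂ) * Z‖ = u * ‖Z‖ := by
  rw [norm_mul, Complex.norm_real, Real.norm_eq_abs, abs_of_pos hu]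

/-- the lengths of the tube vectors -/
lemma invm {M : ℕ} {V : Site} {e : ℂ} (he : ‖e‖ = 1) (hM : 10 ≤ M)
    (h : ‖cc V - ((M : ℝ) : ℂ) * e‖ ≤ 1.4144) : InVM M V := by
  have hMr : (10 : ℝ) ≤ M := by exact_mod_cast hM
  have h2 : ‖((M : ℝ) : ℂ) * e‖ = M := by
    rw [norm_mul, he, mul_one, Complex.norm_real, Real.norm_eq_abs, abs_of_nonneg (by positivity)]
  have h3 : ‖cc V‖ ≤ M + 1.4144 := by
    have := norm_sub_norm_le (cc V) (((M : ℝ) : ℂ) * e)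
    linarith
  have h4 : (M : ℝ) - 1.4144 ≤ ‖cc V‖ := by
    have := norm_sub_norm_le (((M : ℝ) : ℂ) * e) (cc V)
    rw [norm_sub_rev] at this
    linarith
  have h0 : (0 : ℝ) ≤ (M : ℝ) - 2 := by linarith
  constructor
  · have h5 : (((M : ℤ) - 2 : ℤ) : ℝ) ^ 2 ≤ (nsq V : ℝ) := by
      rw [nsq_eq]
      push_cast
      exact pow_le_pow_left₀ h0 (by linarith) 2
    exact_mod_cast h5
  · have h5 : (nsq V : ℝ) ≤ (((M : ℤ) + 2 : ℤ) : ℝ) ^ 2 := by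
      rw [nsq_eq]
      push_cast
      exact pow_le_pow_left₀ (norm_nonneg _) (by linarith) 2
    exact_mod_cast h5

/-- two points of the line near to the same point -/
lemma near_both {P e Z : ℂ} {u s s' c : ℝ} (he : ‖e‖ = 1) (hu : 0 < u)
    (h : ‖Z - (u : ℂ) * pt P e s‖ ≤ u * c) (h' : ‖Z - (u : ℂ) * pt P e s'‖ ≤ u * c) :
    |s' - s| ≤ 2 * c := by
  have h1 : ‖(u : ℂ) * pt P e s' - (u : ℂ) * pt P e s‖ ≤ u * (2 * c) := by
    have e1 : (u : ℂ) * pt P e s' - (u : ℂ) * pt P e s =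
      (Z - (u : ℂ) * pt P e s) - (Z - (u : ℂ) * pt P e s') := by ring
    rw [e1]
    refine (norm_sub_le _ _).trans ?_
    linarith
  rw [← mul_sub, norm_u hu, norm_pt_sub he] at h1
  exact le_of_mul_le_mul_left h1 hu

/-- the size of the cell of an end -/
lemma norm_end {X Q : ℂ} {u A : ℝ} (hu : 0 < u) (hX : ‖X‖ ≤ 8 * (A * u))
    (h : ‖X - (u : ℂ) * Q‖ ≤ 0.7072 * u) : ‖Q‖ ≤ 8 * A + 0.7072 := by
  have h2 : ‖(u : ℂ) * Q‖ ≤ 8 * (A * u) + 0.7072 * u := by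
    have := norm_sub_norm_le ((u : ℂ) * Q) X
    rw [norm_sub_rev] at this
    linarith
  rw [norm_u hu] at h2
  have h3 : u * ‖Q‖ ≤ u * (8 * A + 0.7072) := by linarith
  exact le_of_mul_le_mul_left h3 hu

/-- distance to the axis -/
lemma axis_dist {P e X : ℂ} {u a M s s' : ℝ} (he : ‖e‖ = 1) (hu : 0 < u) (hM : 0 < M)
    (h1 : a ≤ s') (h2 : s' ≤ a + M) (h3 : |s - s'| ≤ 0.0072)
    (h5 : ‖X - (u : ℂ) * pt P e s‖ ≤ 1.2072 * u) :
    ‖X - ((u : ℂ) * cc (rd (pt P e a)) + (((s' - a) / M : ℝ) : ℂ) *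
      ((u : ℂ) * cc (rd (pt P e (a + M))) - (u : ℂ) * cc (rd (pt P e a))))‖ ≤ 2 * u := by
  have ht0 : 0 ≤ (s' - a) / M := div_nonneg (by linarith) hM.le
  have ht1 : (s' - a) / M ≤ 1 := by rw [div_le_one hM]; linarith
  have h4 := axis_near (P := P) (e := e) (a := a) (M := M) ht0 ht1
  have e1 : a + (s' - a) / M * M = s' := by field_simp; ring
  rw [e1] at h4
  have h6 := norm_pt_sub (P := P) he s s'
  have e2 : X - ((u : ℂ) * cc (rd (pt P e a)) + (((s' - a) / M : ℝ) : ℂ) *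
      ((u : ℂ) * cc (rd (pt P e (a + M))) - (u : ℂ) * cc (rd (pt P e a)))) =
      (X - (u : ℂ) * pt P e s) + (u : ℂ) * (pt P e s - pt P e s') -
      (u : ℂ) * ((cc (rd (pt P e a)) + (((s' - a) / M : ℝ) : ℂ) *
        (cc (rd (pt P e (a + M))) - cc (rd (pt P e a)))) - pt P e s') := by
    ring
  rw [e2]
  refine (norm_sub_le _ _).trans ?_
  have h7 := norm_add_le (X - (u : ℂ) * pt P e s) ((u : ℂ) * (pt P e s - pt P e s'))
  rw [norm_u hu] at h7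
  rw [norm_u hu]
  rw [h6] at h7
  have h8 := mul_le_mul_of_nonneg_left h3 hu.le
  have h9 := mul_le_mul_of_nonneg_left h4 hu.le
  linarith

/-- the coordinate of a point near to the line -/
lemma coord_near {P e X : ℂ} {u r c : ℝ} (he : ‖e‖ = 1) (hu : 0 < u)
    (h : ‖X - (u : ℂ) * pt P e r‖ ≤ c * u) :
    |((X / (u : ℂ) - P) * (starRingEnd ℂ) e).re - r| ≤ c := by
  have huc : (u : ℂ) ≠ 0 := by exact_mod_cast hu.ne'
  have hee : e * (starRingEnd ℂ) e = 1 := by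
    rw [Complex.mul_conj, Complex.normSq_eq_norm_sq, he]; norm_num
  have e1 : X / (u : ℂ) - P = (X - (u : ℂ) * pt P e r) / (u : ℂ) + (r : ℂ) * e := by
    simp only [pt]
    field_simp
    ring
  have e2 : ((X / (u : ℂ) - P) * (starRingEnd ℂ) e).re - r =
      (((X - (u : ℂ) * pt P e r) / (u : ℂ)) * (starRingEnd ℂ) e).re := by
    rw [e1, add_mul, Complex.add_re, mul_assoc, hee, mul_one, Complex.ofReal_re]
    ring
  rw [e2]
  refine (re_conj_le he).trans ?_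
  rw [norm_div, Complex.norm_real, Real.norm_eq_abs, abs_of_pos hu, div_le_iff₀ hu]
  exact h

/-- the step of the coordinate -/
lemma coord_step {P e X X' : ℂ} {u c : ℝ} (he : ‖e‖ = 1) (hu : 0 < u)
    (h : ‖X' - X‖ ≤ c * u) :
    |((X' / (u : ℂ) - P) * (starRingEnd ℂ) e).re - ((X / (u : ℂ) - P) * (starRingEnd ℂ) e).re| ≤
      c := by
  have e1 : ((X' / (u : ℂ) - P) * (starRingEnd ℂ) e).re -
      ((X / (u : ℂ) - P) * (starRingEnd ℂ) e).re =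
      (((X' - X) / (u : ℂ)) * (starRingEnd ℂ) e).re := by
    rw [← Complex.sub_re]
    congr 1
    ring
  rw [e1]
  refine (re_conj_le he).trans ?_
  rw [norm_div, Complex.norm_real, Real.norm_eq_abs, abs_of_pos hu, div_le_iff₀ hu]
  exact h

/-- projection to an interval -/
lemma clamp {s a b : ℝ} (hab : a ≤ b) (h1 : a - 0.0072 ≤ s) (h2 : s ≤ b + 0.0072) :
    ∃ s', a ≤ s' ∧ s' ≤ b ∧ |s - s'| ≤ 0.0072 := by
  rcases le_total s a with hc | hc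
  · exact ⟨a, le_rfl, hab, by rw [abs_le]; constructor <;> linarith⟩
  · rcases le_total s b with hc' | hc'
    · exact ⟨s, hc, hc', by rw [sub_self, abs_zero]; norm_num⟩
    · exact ⟨b, hab, le_rfl, by rw [abs_le]; constructor <;> linarith⟩

/-- the points of the tube in the coordinate of the line -/
lemma tube_coord {P e : ℂ} {a : ℝ} {M u : ℕ} (hu : (0 : ℝ) < u) {z : Site} {r : ℝ} (hr : 0 ≤ r)
    (h : nearSeg (sm u (rd (pt P e a))) (sm u (rd (pt P e a)) +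
      sm u (rd (pt P e (a + M)) - rd (pt P e a))) z r) :
    ∃ s, a ≤ s ∧ s ≤ a + M ∧ ‖cc z - ((u : ℝ) : ℂ) * pt P e s‖ ≤ r + 0.7072 * u := by
  have hend : cc (sm u (rd (pt P e a)) + sm u (rd (pt P e (a + M)) - rd (pt P e a))) =
      ((u : ℝ) : ℂ) * cc (rd (pt P e (a + M))) := by
    rw [cc_add, cc_sm, cc_sm, cc_sub]
    ring
  obtain ⟨t, h0, h1, h2⟩ := (near_iff hr).1 h
  rw [hend, cc_sm] at h2
  have hM : (0 : ℝ) ≤ M := Nat.cast_nonneg M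
  have hx1 : 0 ≤ t * M := mul_nonneg h0 hM
  have hx2 : t * M ≤ M := mul_le_of_le_one_left hM h1
  refine ⟨a + t * M, by linarith, by linarith, ?_⟩
  have h3 := axis_near (P := P) (e := e) (a := a) (M := (M : ℝ)) h0 h1
  have e1 : cc z - ((u : ℝ) : ℂ) * pt P e (a + t * M) =
      (cc z - (((u : ℝ) : ℂ) * cc (rd (pt P e a)) + (t : ℂ) * (((u : ℝ) : ℂ) *
        cc (rd (pt P e (a + M))) - ((u : ℝ) : ℂ) * cc (rd (pt P e a))))) +
        ((u : ℝ) : ℂ) * ((cc (rd (pt P e a)) + (t : ℂ) *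
        (cc (rd (pt P e (a + M))) - cc (rd (pt P e a)))) - pt P e (a + t * M)) := by
    ring
  rw [e1]
  refine (norm_add_le _ _).trans ?_
  rw [norm_u hu]
  have := mul_le_mul_of_nonneg_left h3 hu.le
  linarith

end Pool.Agent.H20.RFZ
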