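import Pool.Agent.H98.RFZ.Targets2

/-!
# Board `rfz_modules`, row A3: iteration of the scaling up
-/

set_option autoImplicit false

open Filter Topology

namespace Pool.Agent.H20.RFZ

open Pool.Agent.H98.RFZ Pool.Agent.H98.RFC

/-- the scales -/
def vs (l v : ℕ) : ℕ → ℕ
  | 0 => v
  | k + 1 => (l * 2 ^ k) * vs l v k

/-- the constants -/
noncomputable def cs (ρ L : ℝ) : ℕ → ℝ
  | 0 => 1
  | k + 1 => cs ρ L k * (1 - 100 * ρ * (1 / (L * 2 ^ k)))

lemma vs_succ (l v k : ℕ) : vs l v (k + 1) = (l * 2 ^ k) * vs l v k := rfl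

lemma cs_succ (ρ L : ℝ) (k : ℕ) :
    cs ρ L (k + 1) = cs ρ L k * (1 - 100 * ρ * (1 / (L * 2 ^ k))) := rfl

lemma vs_pos {l v : ℕ} (hl : 0 < l) (hv : 0 < v) (k : ℕ) : 0 < vs l v k := by
  induction k with
  | zero => exact hv
  | succ k ih => rw [vs_succ]; positivity

lemma vs_step {l v : ℕ} (k : ℕ) : l * vs l v k ≤ vs l v (k + 1) := by
  rw [vs_succ]
  apply Nat.mul_le_mul_right
  have : 1 ≤ 2 ^ k := Nat.one_le_two_pow
  nlinarith

lemma vs_mono {l v : ℕ} (hl : 0 < l) : Monotone (vs l v) := by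
  apply monotone_nat_of_le_succ
  intro k
  have := vs_step (l := l) (v := v) k
  have h2 : vs l v k ≤ l * vs l v k := Nat.le_mul_of_pos_left _ hl
  omega

lemma vs_ge {l v : ℕ} (hl : 2 ≤ l) (hv : 0 < v) (k : ℕ) : k < vs l v k := by
  induction k with
  | zero => exact hv
  | succ k ih =>
    have := vs_step (l := l) (v := v) k
    have h2 : 2 * vs l v k ≤ l * vs l v k := Nat.mul_le_mul_right _ hl
    omega

/-- upper bound for the scales -/
lemma vs_le {l v D : ℕ} (hl : l ≤ 2 ^ D) (hv : v ≤ 2 ^ D) (k : ℕ) :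
    vs l v k ≤ 2 ^ (D + D * k + k ^ 2) := by
  induction k with
  | zero => simpa [vs] using hv
  | succ k ih =>
    rw [vs_succ]
    have h1 : l * 2 ^ k * vs l v k ≤ 2 ^ D * 2 ^ k * 2 ^ (D + D * k + k ^ 2) :=
      Nat.mul_le_mul (Nat.mul_le_mul_right _ hl) ih
    refine h1.trans ?_
    rw [← pow_add, ← pow_add]
    apply Nat.pow_le_pow_right (by norm_num)
    nlinarith

lemma cs_bounds {ρ θ L : ℝ} (hρ : 1 ≤ ρ) (hθ : 0 < θ) (hθ1 : θ < 1) (hL : 400 * ρ ≤ θ * L)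
    (k : ℕ) : 1 - θ / 2 * (1 - 1 / 2 ^ k) ≤ cs ρ L k ∧ cs ρ L k ≤ 1 := by
  have hL0 : 0 < L := by
    by_contra hc
    push Not at hc
    nlinarith
  induction k with
  | zero => simp [cs]
  | succ k ih =>
    rw [cs_succ]
    set x : ℝ := 1 / 2 ^ k with hx
    have hx0 : 0 < x := by positivity
    have hx1 : x ≤ 1 := by
      rw [hx, div_le_one (by positivity)]
      exact one_le_pow₀ (by norm_num)
    have e1 : 100 * ρ * (1 / (L * 2 ^ k)) = 100 * ρ / L * x := by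
      rw [hx]; field_simp
    have e2 : 1 / (2 : ℝ) ^ (k + 1) = x / 2 := by
      rw [hx, pow_succ]; field_simp
    have h3 : 100 * ρ / L ≤ θ / 4 := by
      rw [div_le_div_iff₀ hL0 (by norm_num)]
      linarith
    have h4 : 0 ≤ 100 * ρ / L := by positivity
    rw [e1, e2]
    obtain ⟨i1, i2⟩ := ih
    have hc0 : 0 ≤ cs ρ L k := by nlinarith
    have h5 : 100 * ρ / L * x ≤ θ / 4 * x := mul_le_mul_of_nonneg_right h3 hx0.le
    have h6 : 0 ≤ 100 * ρ / L * x := mul_nonneg h4 hx0.le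
    constructor
    · have h7 : cs ρ L k * (100 * ρ / L * x) ≤ 1 * (100 * ρ / L * x) :=
        mul_le_mul_of_nonneg_right i2 h6
      nlinarith
    · nlinarith [mul_nonneg hc0 h6]

theorem pf_A3 : B_A3 := by
  intro ρ θ hρ hθ hθ1 P v₀ hv₀ hP0 _hPm hrec v₁ hv₁ hP1
  -- the ratio
  obtain ⟨l, hl1, hl2⟩ : ∃ l : ℕ, 400 * ρ ≤ θ * l ∧ θ * l ≤ 401 * ρ := by
    refine ⟨⌈400 * ρ / θ⌉₊, ?_, ?_⟩
    · have h1 : 400 * ρ / θ ≤ (⌈400 * ρ / θ⌉₊ : ℝ) := Nat.le_ceil _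
      rw [div_le_iff₀ hθ] at h1
      linarith
    · have h1 : (⌈400 * ρ / θ⌉₊ : ℝ) < 400 * ρ / θ + 1 := Nat.ceil_lt_add_one (by positivity)
      have h2 : θ * (⌈400 * ρ / θ⌉₊ : ℝ) ≤ θ * (400 * ρ / θ + 1) :=
        mul_le_mul_of_nonneg_left h1.le hθ.le
      have h3 : θ * (400 * ρ / θ + 1) = 400 * ρ + θ := by field_simp
      linarith
  have hlr : (400 : ℝ) ≤ l := by
    by_contra hc
    push Not at hc
    nlinarith
  have hl400 : 400 ≤ l := by exact_mod_cast hlr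
  have hl0 : 0 < l := by omega
  set L : ℝ := (l : ℝ) with hLdef
  have hL0 : 0 < L := by linarith
  have hvpos : ∀ k, 0 < vs l v₁ k := vs_pos hl0 (by omega)
  have hv0 : ∀ k, v₀ ≤ vs l v₁ k := fun k => hv₁.trans (vs_mono hl0 (Nat.zero_le k))
  have hcb := fun k => cs_bounds hρ hθ hθ1 hl1 k
  have hchalf : ∀ k, 1 - θ / 2 ≤ cs ρ L k := by
    intro k
    have h1 := (hcb k).1
    have h2 : (0 : ℝ) < 1 / 2 ^ k := by positivity
    nlinarith
  have hcpos : ∀ k, 0 < cs ρ L k := fun k => by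
    have := hchalf k
    linarith
  have h100 : ∀ k, 100 * vs l v₁ k ≤ vs l v₁ (k + 1) := fun k =>
    (Nat.mul_le_mul_right _ (by omega : 100 ≤ l)).trans (vs_step k)
  have hquot : ∀ k, (vs l v₁ (k + 1) : ℝ) = L * 2 ^ k * (vs l v₁ k : ℝ) := by
    intro k
    rw [vs_succ]
    push_cast
    rfl
  -- the sequence of the bounds
  have hb : ∀ k, (20 * L) ^ 4 * 16 ^ (k + 1) * P (cs ρ L k) (vs l v₁ k) ≤ (1 / 2) ^ (2 ^ k) := by
    intro k
    induction k with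
    | zero =>
      have h1 : P (cs ρ L 0) (vs l v₁ 0) ≤ (θ / (10 ^ 5 * ρ)) ^ 4 := hP1
      have h2 : 20 * L * (θ / (10 ^ 5 * ρ)) ≤ 8020 / 10 ^ 5 := by
        rw [mul_div_assoc', div_le_div_iff₀ (by positivity) (by positivity)]
        nlinarith
      have h3 : 0 ≤ 20 * L * (θ / (10 ^ 5 * ρ)) := by positivity
      have h4 := pow_le_pow_left₀ h3 h2 4
      calc (20 * L) ^ 4 * 16 ^ (0 + 1) * P (cs ρ L 0) (vs l v₁ 0)
          ≤ (20 * L) ^ 4 * 16 ^ (0 + 1) * (θ / (10 ^ 5 * ρ)) ^ 4 := by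
            apply mul_le_mul_of_nonneg_left h1 (by positivity)
        _ = 16 * (20 * L * (θ / (10 ^ 5 * ρ))) ^ 4 := by ring
        _ ≤ 16 * (8020 / 10 ^ 5) ^ 4 := by linarith
        _ ≤ _ := by norm_num
    | succ k ih =>
      have hvk : (0 : ℝ) < (vs l v₁ k : ℝ) := by exact_mod_cast hvpos k
      have h1 := hrec (cs ρ L k) (cs ρ L (k + 1)) (vs l v₁ k) (vs l v₁ (k + 1)) (hv0 k) (h100 k)
        (hcpos k) (hcpos (k + 1)).le (by
          rw [cs_succ, hquot]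
          apply le_of_eq
          congr 3
          field_simp)
      have e1 : 20 * (vs l v₁ (k + 1) : ℝ) / (vs l v₁ k : ℝ) = 20 * L * 2 ^ k := by
        rw [hquot]; field_simp
      rw [e1] at h1
      have hPk := hP0 (cs ρ L k) (vs l v₁ k)
      have h2 : 0 ≤ (20 * L) ^ 4 * 16 ^ (k + 1) * P (cs ρ L k) (vs l v₁ k) := by positivity
      have h3 := pow_le_pow_left₀ h2 ih 2
      calc (20 * L) ^ 4 * 16 ^ (k + 1 + 1) * P (cs ρ L (k + 1)) (vs l v₁ (k + 1))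
          ≤ (20 * L) ^ 4 * 16 ^ (k + 1 + 1) *
            ((20 * L * 2 ^ k) ^ 4 * P (cs ρ L k) (vs l v₁ k) ^ 2) :=
            mul_le_mul_of_nonneg_left h1 (by positivity)
        _ = ((20 * L) ^ 4 * 16 ^ (k + 1) * P (cs ρ L k) (vs l v₁ k)) ^ 2 := by
            have : (2 : ℝ) ^ k * 2 ^ k * (2 ^ k * 2 ^ k) = 16 ^ k := by
              rw [← mul_pow, ← mul_pow]; norm_num
            have e2 : ((2 : ℝ) ^ k) ^ 4 = 16 ^ k := by rw [← this]; ring
            rw [mul_pow (20 * L) (2 ^ k) 4, e2, pow_succ (16 : ℝ) (k + 1), pow_succ (16 : ℝ) k]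
            ring
        _ ≤ ((1 / 2) ^ (2 ^ k)) ^ 2 := h3
        _ = (1 / 2) ^ (2 ^ (k + 1)) := by rw [← pow_mul, pow_succ 2 k]
  have hPk : ∀ k, P (cs ρ L k) (vs l v₁ k) ≤ (1 / 2) ^ (2 ^ k) := by
    intro k
    refine le_trans ?_ (hb k)
    have h1 : (1 : ℝ) ≤ (20 * L) ^ 4 * 16 ^ (k + 1) := by
      have h2 : (1 : ℝ) ≤ (20 * L) ^ 4 := one_le_pow₀ (by linarith)
      have h3 : (1 : ℝ) ≤ 16 ^ (k + 1) := one_le_pow₀ (by norm_num)
      nlinarith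
    have := hP0 (cs ρ L k) (vs l v₁ k)
    nlinarith
  -- the final estimate
  obtain ⟨D, hD⟩ : ∃ D : ℕ, l + v₁ ≤ 2 ^ D := ⟨l + v₁, Nat.lt_two_pow_self.le⟩
  set C : ℕ := 100 + 100 * D with hC
  obtain ⟨K, hK⟩ : ∃ K : ℕ, ∀ k : ℕ, K ≤ k → C * (k + 2) ^ 2 ≤ 2 ^ (k + 1) := by
    have ht := tendsto_pow_const_div_const_pow_of_one_lt 2 (one_lt_two (α := ℝ))
    have hev := (ht.eventually (gt_mem_nhds (by positivity : (0 : ℝ) < 1 / (2 * (C : ℝ) + 1))))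
    obtain ⟨K, hK⟩ := eventually_atTop.1 hev
    refine ⟨K, fun k hk => ?_⟩
    have h1 := hK (k + 2) (by omega)
    rw [div_lt_div_iff₀ (by positivity) (by positivity)] at h1
    have h2 : (C : ℝ) * ((k + 2 : ℕ) : ℝ) ^ 2 ≤ 2 ^ (k + 1) := by
      have e : (2 : ℝ) ^ (k + 2) = 2 * 2 ^ (k + 1) := by ring
      rw [e] at h1
      have h3 : (0 : ℝ) ≤ ((k + 2 : ℕ) : ℝ) ^ 2 := by positivity
      nlinarith
    exact_mod_cast h2
  refine ⟨vs l v₁ (K + 1), fun w hw => ?_⟩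
  classical
  have hex : ∃ j, w < vs l v₁ j := ⟨w, vs_ge (by omega) (by omega) w⟩
  obtain ⟨k, hKk, hk1, hk2⟩ : ∃ k, K ≤ k ∧ vs l v₁ (k + 1) ≤ w ∧ w < vs l v₁ (k + 2) := by
    have h1 := Nat.find_spec hex
    have h2 : K + 1 < Nat.find hex := by
      by_contra hc
      push Not at hc
      have := vs_mono (v := v₁) hl0 hc
      omega
    refine ⟨Nat.find hex - 2, by omega, ?_, ?_⟩
    · have h3 := Nat.find_min hex (m := Nat.find hex - 1) (by omega)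
      have e : Nat.find hex - 2 + 1 = Nat.find hex - 1 := by omega
      rw [e]
      omega
    · have e : Nat.find hex - 2 + 2 = Nat.find hex := by omega
      rw [e]
      exact h1
  have hvk : (0 : ℝ) < (vs l v₁ k : ℝ) := by exact_mod_cast hvpos k
  have hw0 : 0 < w := lt_of_lt_of_le (hvpos _) hk1
  have hwr : (0 : ℝ) < (w : ℝ) := by exact_mod_cast hw0
  have hk1r : (vs l v₁ (k + 1) : ℝ) ≤ w := by exact_mod_cast hk1
  have hk2r : (w : ℝ) ≤ vs l v₁ (k + 2) := by exact_mod_cast hk2.le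
  have hratio : (vs l v₁ k : ℝ) / w ≤ 1 / (L * 2 ^ k) := by
    rw [div_le_div_iff₀ hwr (by positivity), one_mul]
    rw [hquot] at hk1r
    linarith
  have h1 := hrec (cs ρ L k) (1 - θ) (vs l v₁ k) w (hv0 k) ((h100 k).trans hk1) (hcpos k)
    (by linarith) (by
      have h2 := hchalf (k + 1)
      rw [cs_succ] at h2
      have h3 : cs ρ L k * (1 - 100 * ρ * (1 / (L * 2 ^ k))) ≤
          cs ρ L k * (1 - 100 * ρ * ((vs l v₁ k : ℝ) / w)) := by
        apply mul_le_mul_of_nonneg_left _ (hcpos k).le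
        have := mul_le_mul_of_nonneg_left hratio (by positivity : (0 : ℝ) ≤ 100 * ρ)
        linarith
      linarith)
  refine h1.trans ?_
  have hPk' := hPk k
  have h2 : P (cs ρ L k) (vs l v₁ k) ^ 2 ≤ ((1 / 2) ^ (2 ^ k)) ^ 2 :=
    pow_le_pow_left₀ (hP0 _ _) hPk' 2
  have e2 : (((1 : ℝ) / 2) ^ (2 ^ k)) ^ 2 = ((2 : ℝ) ^ (2 ^ (k + 1)))⁻¹ := by
    rw [← pow_mul, pow_succ 2 k, one_div, inv_pow]
  rw [e2] at h2
  -- the quotient
  have hq : 20 * (w : ℝ) / (vs l v₁ k : ℝ) ≤ 2 ^ (6 + 2 * D + 2 * k) := by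
    rw [div_le_iff₀ hvk]
    have h3 : (w : ℝ) ≤ L * 2 ^ (k + 1) * (L * 2 ^ k * (vs l v₁ k : ℝ)) := by
      rw [← hquot, ← hquot]; exact hk2r
    have h4 : L ≤ 2 ^ D := by
      have : l ≤ 2 ^ D := by omega
      rw [hLdef]
      exact_mod_cast this
    have h5 : L * L ≤ 2 ^ D * 2 ^ D := mul_le_mul h4 h4 hL0.le (by positivity)
    have h6 : (0 : ℝ) < 2 ^ k := by positivity
    calc 20 * (w : ℝ) ≤ 20 * (L * 2 ^ (k + 1) * (L * 2 ^ k * (vs l v₁ k : ℝ))) := by linarith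
      _ = (L * L) * (40 * (2 ^ k * 2 ^ k) * (vs l v₁ k : ℝ)) := by ring
      _ ≤ (2 ^ D * 2 ^ D) * (64 * (2 ^ k * 2 ^ k) * (vs l v₁ k : ℝ)) := by
          apply mul_le_mul h5 _ (by positivity) (by positivity)
          apply mul_le_mul_of_nonneg_right _ hvk.le
          apply mul_le_mul_of_nonneg_right _ (by positivity)
          norm_num
      _ = 2 ^ (6 + 2 * D + 2 * k) * (vs l v₁ k : ℝ) := by
          rw [show 6 + 2 * D + 2 * k = D + D + (6 + (k + k)) by ring, pow_add, pow_add, pow_add 2 6,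
            pow_add]
          ring
  have hq4 : (20 * (w : ℝ) / (vs l v₁ k : ℝ)) ^ 4 ≤ 2 ^ (4 * (6 + 2 * D + 2 * k)) := by
    have h3 : (0 : ℝ) ≤ 20 * (w : ℝ) / (vs l v₁ k : ℝ) := by positivity
    have := pow_le_pow_left₀ h3 hq 4
    rwa [← pow_mul, mul_comm (6 + 2 * D + 2 * k) 4] at this
  have hw20 : (w : ℝ) ^ 20 ≤ 2 ^ (20 * (D + D * (k + 2) + (k + 2) ^ 2)) := by
    have h3 : w ≤ 2 ^ (D + D * (k + 2) + (k + 2) ^ 2) :=
      hk2.le.trans (vs_le (by omega) (by omega) (k + 2))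
    have h4 : (w : ℝ) ≤ 2 ^ (D + D * (k + 2) + (k + 2) ^ 2) := by exact_mod_cast h3
    have := pow_le_pow_left₀ hwr.le h4 20
    rwa [← pow_mul, mul_comm _ 20] at this
  have hexp : 4 * (6 + 2 * D + 2 * k) + 20 * (D + D * (k + 2) + (k + 2) ^ 2) ≤ 2 ^ (k + 1) := by
    refine le_trans ?_ (hK k hKk)
    rw [hC]
    nlinarith [Nat.zero_le (D * k), Nat.zero_le (D * k ^ 2), Nat.zero_le D, Nat.zero_le k]

  have hfin : (w : ℝ) ^ 20 * ((20 * (w : ℝ) / (vs l v₁ k : ℝ)) ^ 4 *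
      P (cs ρ L k) (vs l v₁ k) ^ 2) ≤ 1 := by
    calc (w : ℝ) ^ 20 * ((20 * (w : ℝ) / (vs l v₁ k : ℝ)) ^ 4 * P (cs ρ L k) (vs l v₁ k) ^ 2)
        ≤ 2 ^ (20 * (D + D * (k + 2) + (k + 2) ^ 2)) * (2 ^ (4 * (6 + 2 * D + 2 * k)) *
          ((2 : ℝ) ^ (2 ^ (k + 1)))⁻¹) := by
          apply mul_le_mul hw20 _ (by positivity) (by positivity)
          exact mul_le_mul hq4 h2 (by positivity) (by positivity)
      _ = 2 ^ (4 * (6 + 2 * D + 2 * k) + 20 * (D + D * (k + 2) + (k + 2) ^ 2)) *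
          ((2 : ℝ) ^ (2 ^ (k + 1)))⁻¹ := by rw [pow_add]; ring
      _ ≤ 2 ^ (2 ^ (k + 1)) * ((2 : ℝ) ^ (2 ^ (k + 1)))⁻¹ := by
          apply mul_le_mul_of_nonneg_right _ (by positivity)
          exact pow_le_pow_right₀ (by norm_num) hexp
      _ = 1 := mul_inv_cancel₀ (by positivity)
  rw [inv_eq_one_div, le_div_iff₀ (by positivity), mul_comm]
  exact hfin

end Pool.Agent.H20.RFZ
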