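import Pool.Agent.H98.RFZ.Targets2

/-!
# Board `rfz_modules`, row B2: tubes along a chord
-/

set_option autoImplicit false

open Filter Topology

namespace Pool.Agent.H20.RFZ

open Pool.Agent.H98.RFZ Pool.Agent.H98.RFC

/-- a site as a complex number -/
noncomputable def cc (x : Site) : ℂ := ⟨(x.1 : ℝ), (x.2 : ℝ)⟩

lemma cc_sub (x y : Site) : cc (x - y) = cc x - cc y := by
  apply Complex.ext <;> simp [cc]

lemma cc_add (x y : Site) : cc (x + y) = cc x + cc y := by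
  apply Complex.ext <;> simp [cc]

lemma cc_sm (u : ℕ) (x : Site) : cc (sm u x) = ((u : ℝ) : ℂ) * cc x := by
  apply Complex.ext <;> simp [cc, sm]

lemma nsq_eq (x : Site) : (nsq x : ℝ) = ‖cc x‖ ^ 2 := by
  rw [Complex.sq_norm, Complex.normSq_apply]
  simp [cc, nsq]
  ring

lemma near_iff {a b x : Site} {r : ℝ} (hr : 0 ≤ r) : nearSeg a b x r ↔
    ∃ t : ℝ, 0 ≤ t ∧ t ≤ 1 ∧ ‖cc x - (cc a + (t : ℂ) * (cc b - cc a))‖ ≤ r := by
  have key : ∀ t : ℝ, ((x.1 : ℝ) - ((a.1 : ℝ) + t * ((b.1 : ℝ) - (a.1 : ℝ)))) ^ 2 +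
      ((x.2 : ℝ) - ((a.2 : ℝ) + t * ((b.2 : ℝ) - (a.2 : ℝ)))) ^ 2 =
      ‖cc x - (cc a + (t : ℂ) * (cc b - cc a))‖ ^ 2 := by
    intro t
    rw [Complex.sq_norm, Complex.normSq_apply]
    simp [cc]
    ring
  unfold nearSeg
  constructor
  · rintro ⟨t, h0, h1, h⟩
    refine ⟨t, h0, h1, ?_⟩
    rw [key] at h
    exact (pow_le_pow_iff_left₀ (norm_nonneg _) hr two_ne_zero).1 h
  · rintro ⟨t, h0, h1, h⟩
    refine ⟨t, h0, h1, ?_⟩
    rw [key]
    exact pow_le_pow_left₀ (norm_nonneg _) h 2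

lemma mem_bx' {x y : Site} {r : ℕ} : x ∈ bx y r ↔ |x.1 - y.1| ≤ r ∧ |x.2 - y.2| ≤ r := by
  unfold bx
  rw [Finset.mem_product, Finset.mem_Icc, Finset.mem_Icc, abs_le, abs_le]
  constructor
  · rintro ⟨⟨h1, h2⟩, h3, h4⟩
    refine ⟨⟨?_, ?_⟩, ?_, ?_⟩ <;> linarith
  · rintro ⟨⟨h1, h2⟩, h3, h4⟩
    refine ⟨⟨?_, ?_⟩, ?_, ?_⟩ <;> linarith

lemma nsq_le_iff {x y : Site} {r : ℕ} : nsq (x - y) ≤ (r : ℤ) ^ 2 ↔ ‖cc x - cc y‖ ≤ r := by
  rw [← cc_sub]
  have h : (nsq (x - y) ≤ (r : ℤ) ^ 2) ↔ (nsq (x - y) : ℝ) ≤ (r : ℝ) ^ 2 := by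
    constructor
    · intro h; exact_mod_cast h
    · intro h; exact_mod_cast h
  rw [h, nsq_eq]
  exact pow_le_pow_iff_left₀ (norm_nonneg _) (Nat.cast_nonneg r) two_ne_zero

lemma mem_eb' {x z : Site} {r : ℕ} : x ∈ eb z r ↔ ‖cc x - cc z‖ ≤ r := by
  unfold eb
  rw [Finset.mem_filter, nsq_le_iff]
  constructor
  · exact fun h => h.2
  · intro h
    refine ⟨?_, h⟩
    have h2 : nsq (x - z) ≤ (r : ℤ) ^ 2 := nsq_le_iff.2 h
    unfold nsq at h2
    have e1 : (x - z).1 = x.1 - z.1 := rfl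
    have e2 : (x - z).2 = x.2 - z.2 := rfl
    rw [e1, e2] at h2
    have hr : (0 : ℤ) ≤ r := Int.natCast_nonneg r
    rw [mem_bx']
    exact ⟨abs_le_of_sq_le_sq (by nlinarith [sq_nonneg (x.2 - z.2)]) hr,
      abs_le_of_sq_le_sq (by nlinarith [sq_nonneg (x.1 - z.1)]) hr⟩

lemma mem_tube' {a b x : Site} {r : ℕ} : x ∈ tube a b r ↔ nearSeg a b x r := by
  simp only [tube, Finset.mem_filter]
  constructor
  · exact fun h => h.2
  · intro h
    refine ⟨?_, h⟩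
    obtain ⟨t, h0, h1, h2⟩ := h
    have hr : (0 : ℝ) ≤ r := Nat.cast_nonneg r
    have gen : ∀ (xx aa bb : ℤ), ((xx : ℝ) - ((aa : ℝ) + t * ((bb : ℝ) - (aa : ℝ)))) ^ 2 ≤
        (r : ℝ) ^ 2 → |xx - aa| ≤ r + (bb - aa).natAbs := by
      intro xx aa bb hh
      have h3 := abs_le_of_sq_le_sq hh hr
      have h4 : |(xx : ℝ) - aa| ≤ r + |(bb : ℝ) - aa| := by
        have e : (xx : ℝ) - aa = ((xx : ℝ) - ((aa : ℝ) + t * ((bb : ℝ) - (aa : ℝ)))) +
          t * ((bb : ℝ) - aa) := by ring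
        rw [e]
        refine (abs_add_le _ _).trans (add_le_add h3 ?_)
        rw [abs_mul, abs_of_nonneg h0]
        exact mul_le_of_le_one_left (abs_nonneg _) h1
      have h5 : ((|xx - aa| : ℤ) : ℝ) ≤ ((r + (bb - aa).natAbs : ℤ) : ℝ) := by
        push_cast
        exact h4
      exact_mod_cast h5
    have g1 := gen x.1 a.1 b.1 (by nlinarith [sq_nonneg ((x.2 : ℝ) - ((a.2 : ℝ) + t * ((b.2 : ℝ) - (a.2 : ℝ))))])
    have g2 := gen x.2 a.2 b.2 (by nlinarith [sq_nonneg ((x.1 : ℝ) - ((a.1 : ℝ) + t * ((b.1 : ℝ) - (a.1 : ℝ))))])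
    rw [mem_bx']
    constructor
    · refine g1.trans ?_
      push_cast
      have : (0 : ℤ) ≤ |b.2 - a.2| := abs_nonneg _
      linarith
    · refine g2.trans ?_
      push_cast
      have : (0 : ℤ) ≤ |b.1 - a.1| := abs_nonneg _
      linarith

lemma mem_box' {x : Site} {r : ℕ} : x ∈ box r ↔ |x.1| ≤ r ∧ |x.2| ≤ r := by
  unfold box
  rw [Finset.mem_product, Finset.mem_Icc, Finset.mem_Icc, abs_le, abs_le]

/-- convex combinations -/
lemma conv_norm {z w : ℂ} {t c : ℝ} (h0 : 0 ≤ t) (h1 : t ≤ 1) (hz : ‖z‖ ≤ c) (hw : ‖w‖ ≤ c) :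
    ‖((1 : ℂ) - t) * z + (t : ℂ) * w‖ ≤ c := by
  refine (norm_add_le _ _).trans ?_
  have e : ((1 : ℂ) - t) = ((1 - t : ℝ) : ℂ) := by push_cast; ring
  rw [norm_mul, norm_mul, e, Complex.norm_real, Complex.norm_real, Real.norm_eq_abs,
    Real.norm_eq_abs, abs_of_nonneg h0, abs_of_nonneg (by linarith : (0 : ℝ) ≤ 1 - t)]
  nlinarith

/-- rounding -/
noncomputable def rd (z : ℂ) : Site := (round z.re, round z.im)

lemma rd_bound (z : ℂ) : ‖cc (rd z) - z‖ ≤ 0.7072 := by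
  have h1 := abs_sub_round z.re
  have h2 := abs_sub_round z.im
  have h3 : ‖cc (rd z) - z‖ ^ 2 ≤ 0.7072 ^ 2 := by
    rw [Complex.sq_norm, Complex.normSq_apply]
    simp only [cc, rd, Complex.sub_re, Complex.sub_im]
    rw [abs_le] at h1 h2
    nlinarith [h1.1, h1.2, h2.1, h2.2]
  exact (pow_le_pow_iff_left₀ (norm_nonneg _) (by norm_num) two_ne_zero).1 h3

/-- the orthogonal projection is the nearest point of the line -/
lemma proj_min {z e : ℂ} (he : ‖e‖ = 1) (t : ℝ) :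
    ‖z - ((z * (starRingEnd ℂ) e).re : ℂ) * e‖ ≤ ‖z - (t : ℂ) * e‖ := by
  have hee : e * (starRingEnd ℂ) e = 1 := by
    rw [Complex.mul_conj, Complex.normSq_eq_norm_sq, he]; norm_num
  have key : ∀ r : ℝ, ‖z - (r : ℂ) * e‖ ^ 2 =
      ((z * (starRingEnd ℂ) e).re - r) ^ 2 + ((z * (starRingEnd ℂ) e).im) ^ 2 := by
    intro r
    have h1 : ‖z - (r : ℂ) * e‖ = ‖z * (starRingEnd ℂ) e - r‖ := by
      have e1 : z * (starRingEnd ℂ) e - r = (z - (r : ℂ) * e) * (starRingEnd ℂ) e := by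
        rw [sub_mul, mul_assoc, hee, mul_one]
      rw [e1, norm_mul, Complex.norm_conj, he, mul_one]
    rw [h1, Complex.sq_norm, Complex.normSq_apply]
    simp only [Complex.sub_re, Complex.sub_im, Complex.ofReal_re, Complex.ofReal_im, sub_zero]
    ring
  have h2 : ‖z - ((z * (starRingEnd ℂ) e).re : ℂ) * e‖ ^ 2 ≤ ‖z - (t : ℂ) * e‖ ^ 2 := by
    rw [key, key]
    nlinarith [sq_nonneg ((z * (starRingEnd ℂ) e).re - t)]
  exact (pow_le_pow_iff_left₀ (norm_nonneg _) (norm_nonneg _) two_ne_zero).1 h2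

lemma re_conj_le {z e : ℂ} (he : ‖e‖ = 1) : |(z * (starRingEnd ℂ) e).re| ≤ ‖z‖ := by
  refine (Complex.abs_re_le_norm _).trans ?_
  rw [norm_mul, Complex.norm_conj, he, mul_one]

/-- a sequence with small steps crosses an interval -/
lemma crossing {s : ℕ → ℝ} {k : ℕ} {a b δ : ℝ} (hab : a < b)
    (hs : ∀ i, i < k → |s (i + 1) - s i| ≤ δ) (h0 : s 0 ≤ a) (hk : b ≤ s k) :
    ∃ i₁ i₂ : ℕ, i₁ ≤ i₂ ∧ i₂ ≤ k ∧ a - δ ≤ s i₁ ∧ s i₁ ≤ a ∧ b ≤ s i₂ ∧ s i₂ ≤ b + δ ∧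
      ∀ i, i₁ ≤ i → i ≤ i₂ → a - δ ≤ s i ∧ s i ≤ b + δ := by
  classical
  have hex : ∃ i, i ≤ k ∧ b ≤ s i := ⟨k, le_rfl, hk⟩
  set i₂ := Nat.find hex with hi₂
  obtain ⟨g1, g2⟩ := Nat.find_spec hex
  have gmin : ∀ i, i < i₂ → s i < b := by
    intro i hi
    have := Nat.find_min hex hi
    push Not at this
    exact this (by omega)
  have hpos : 0 < i₂ := by
    rcases Nat.eq_zero_or_pos i₂ with h | h
    · rw [← hi₂, h] at g2
      linarith
    · exact h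
  set i₁ := Nat.findGreatest (fun i => s i ≤ a) i₂ with hi₁
  have f1 : s i₁ ≤ a := Nat.findGreatest_spec (P := fun i => s i ≤ a) (Nat.zero_le i₂) h0
  have f2 : i₁ ≤ i₂ := Nat.findGreatest_le _
  have f3 : ∀ i, i₁ < i → i ≤ i₂ → a < s i := by
    intro i h1 h2
    have := Nat.findGreatest_is_greatest (P := fun i => s i ≤ a) h1 h2
    push Not at this
    exact this
  have f4 : i₁ < i₂ := by
    rcases Nat.lt_or_ge i₁ i₂ with h | h
    · exact h
    · have : i₁ = i₂ := le_antisymm f2 h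
      rw [this] at f1
      linarith
  have hδ : 0 ≤ δ := (abs_nonneg _).trans (hs 0 (by omega))
  have a1 : a - δ ≤ s i₁ := by
    have h1 := abs_le.1 (hs i₁ (by omega))
    have h2 := f3 (i₁ + 1) (by omega) (by omega)
    linarith [h1.2]
  have a2 : s i₂ ≤ b + δ := by
    have h1 := abs_le.1 (hs (i₂ - 1) (by omega))
    have h2 := gmin (i₂ - 1) (by omega)
    have e : i₂ - 1 + 1 = i₂ := by omega
    rw [e] at h1
    linarith [h1.2]
  refine ⟨i₁, i₂, f2, g1, a1, f1, g2, a2, ?_⟩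
  intro i h1 h2
  constructor
  · rcases Nat.eq_or_lt_of_le h1 with h | h
    · rw [← h]; exact a1
    · have := f3 i h h2
      linarith
  · rcases Nat.eq_or_lt_of_le h2 with h | h
    · rw [h]; exact a2
    · have := gmin i h
      linarith

lemma gdot_eq (p x : Site) : (gdot p x : ℝ) = (cc x * (starRingEnd ℂ) (cc p)).re := by
  simp [gdot, cc]; ring

lemma fdet_eq (p x : Site) : (fdet p x : ℝ) = (cc x * (starRingEnd ℂ) (cc p)).im := by
  simp [fdet, cc]; ring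


/-- the points of the line -/
noncomputable def pt (P e : ℂ) (s : ℝ) : ℂ := P + (s : ℂ) * e

/-- the axis of a rounded segment is close to the line -/
lemma axis_near {P e : ℂ} {a M t : ℝ} (h0 : 0 ≤ t) (h1 : t ≤ 1) :
    ‖(cc (rd (pt P e a)) + (t : ℂ) * (cc (rd (pt P e (a + M))) - cc (rd (pt P e a)))) -
      pt P e (a + t * M)‖ ≤ 0.7072 := by
  have e1 : (cc (rd (pt P e a)) + (t : ℂ) * (cc (rd (pt P e (a + M))) - cc (rd (pt P e a)))) -
      pt P e (a + t * M) = ((1 : ℂ) - t) * (cc (rd (pt P e a)) - pt P e a) +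
        (t : ℂ) * (cc (rd (pt P e (a + M))) - pt P e (a + M)) := by
    simp only [pt]
    push_cast
    ring
  rw [e1]
  exact conv_norm h0 h1 (rd_bound _) (rd_bound _)

lemma pt_sub (P e : ℂ) (s t : ℝ) : pt P e s - pt P e t = ((s - t : ℝ) : ℂ) * e := by
  simp only [pt]; push_cast; ring

lemma norm_pt_sub {P e : ℂ} (he : ‖e‖ = 1) (s t : ℝ) : ‖pt P e s - pt P e t‖ = |s - t| := by
  rw [pt_sub, norm_mul, he, mul_one, Complex.norm_real, Real.norm_eq_abs]

/-- the angle condition -/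
lemma angle {p e X V : ℂ} {φ M D u : ℝ} (he : ‖e‖ = 1) (hφ : 0 < φ) (hφ1 : φ ≤ 1)
    (hM : 100 ≤ φ * M) (hD : M ≤ D) (hu : 0 < u)
    (hX : ‖X - ((u * D : ℝ) : ℂ) * e‖ ≤ 1.4144 * u) (hV : ‖V - (M : ℂ) * e‖ ≤ 1.4144)
    (h : 2 * φ * |(X * (starRingEnd ℂ) p).re| ≤ |(X * (starRingEnd ℂ) p).im|) :
    φ * |(V * (starRingEnd ℂ) p).re| ≤ |(V * (starRingEnd ℂ) p).im| := by
  set n := ‖p‖ with hn
  have hn0 : 0 ≤ n := norm_nonneg _
  have hM0 : 0 < M := by
    by_contra hc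
    push Not at hc
    nlinarith
  have hM100 : 100 ≤ M := by nlinarith
  set g := |(e * (starRingEnd ℂ) p).re| with hg
  set f := |(e * (starRingEnd ℂ) p).im| with hf
  have hg0 : 0 ≤ g := abs_nonneg _
  have hf0 : 0 ≤ f := abs_nonneg _
  have hfg : f ^ 2 + g ^ 2 = n ^ 2 := by
    have h1 : ‖e * (starRingEnd ℂ) p‖ = n := by rw [norm_mul, he, Complex.norm_conj, one_mul]
    rw [← h1, Complex.sq_norm, Complex.normSq_apply, hf, hg, sq_abs, sq_abs]
    ring
  -- decomposition of `X` and `V`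
  have gen : ∀ (Z : ℂ) (r c : ℝ), 0 ≤ r → ‖Z - (r : ℂ) * e‖ ≤ c →
      |(Z * (starRingEnd ℂ) p).re| ≤ r * g + c * n ∧ r * g - c * n ≤ |(Z * (starRingEnd ℂ) p).re| ∧
      |(Z * (starRingEnd ℂ) p).im| ≤ r * f + c * n ∧
      r * f - c * n ≤ |(Z * (starRingEnd ℂ) p).im| := by
    intro Z r c hr hZ
    have e1 : Z * (starRingEnd ℂ) p = (r : ℂ) * (e * (starRingEnd ℂ) p) +
        (Z - (r : ℂ) * e) * (starRingEnd ℂ) p := by ring
    have h1 : ‖(Z - (r : ℂ) * e) * (starRingEnd ℂ) p‖ ≤ c * n := by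
      rw [norm_mul, Complex.norm_conj]
      exact mul_le_mul_of_nonneg_right hZ hn0
    have h2 := (Complex.abs_re_le_norm ((Z - (r : ℂ) * e) * (starRingEnd ℂ) p)).trans h1
    have h3 := (Complex.abs_im_le_norm ((Z - (r : ℂ) * e) * (starRingEnd ℂ) p)).trans h1
    have e2 : (Z * (starRingEnd ℂ) p).re = r * (e * (starRingEnd ℂ) p).re +
        ((Z - (r : ℂ) * e) * (starRingEnd ℂ) p).re := by
      rw [e1, Complex.add_re, Complex.re_ofReal_mul]
    have e3 : (Z * (starRingEnd ℂ) p).im = r * (e * (starRingEnd ℂ) p).im +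
        ((Z - (r : ℂ) * e) * (starRingEnd ℂ) p).im := by
      rw [e1, Complex.add_im, Complex.im_ofReal_mul]
    have e4 : |r * (e * (starRingEnd ℂ) p).re| = r * g := by rw [abs_mul, abs_of_nonneg hr]
    have e5 : |r * (e * (starRingEnd ℂ) p).im| = r * f := by rw [abs_mul, abs_of_nonneg hr]
    rw [e2, e3]
    refine ⟨?_, ?_, ?_, ?_⟩
    · exact (abs_add_le _ _).trans (by rw [e4]; linarith)
    · have := abs_sub_abs_le_abs_sub (r * (e * (starRingEnd ℂ) p).re)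
        (-((Z - (r : ℂ) * e) * (starRingEnd ℂ) p).re)
      rw [sub_neg_eq_add, abs_neg, e4] at this
      linarith
    · exact (abs_add_le _ _).trans (by rw [e5]; linarith)
    · have := abs_sub_abs_le_abs_sub (r * (e * (starRingEnd ℂ) p).im)
        (-((Z - (r : ℂ) * e) * (starRingEnd ℂ) p).im)
      rw [sub_neg_eq_add, abs_neg, e5] at this
      linarith
  obtain ⟨_, x2, x3, _⟩ := gen X (u * D) (1.4144 * u) (by nlinarith) hX
  obtain ⟨v1, _, _, v4⟩ := gen V M 1.4144 hM0.le hV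
  -- scale
  have hDf : 2 * φ * (D * g - 1.4144 * n) ≤ D * f + 1.4144 * n := by
    have h1 : 2 * φ * (u * D * g - 1.4144 * u * n) ≤ u * D * f + 1.4144 * u * n :=
      (mul_le_mul_of_nonneg_left x2 (by positivity)).trans (h.trans x3)
    have h2 : u * (2 * φ * (D * g - 1.4144 * n)) ≤ u * (D * f + 1.4144 * n) := by linarith
    exact le_of_mul_le_mul_left h2 hu
  -- the bound for `f`
  have hMf : 2 * φ * (M * g) - 4.2432 * n ≤ M * f := by
    have hD0 : 0 < D := lt_of_lt_of_le hM0 hD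
    have h0 : φ * n ≤ n := mul_le_of_le_one_left hn0 hφ1
    have h1 : D * (2 * φ * g - f) ≤ 4.2432 * n := by linarith
    have h2 : M * (2 * φ * g - f) ≤ 4.2432 * n := by
      rcases le_or_gt (2 * φ * g - f) 0 with h3 | h3
      · have : M * (2 * φ * g - f) ≤ 0 := mul_nonpos_of_nonneg_of_nonpos hM0.le h3
        have : 0 ≤ 4.2432 * n := by positivity
        linarith
      · have := mul_le_mul_of_nonneg_right hD h3.le
        linarith
    linarith
  refine (mul_le_mul_of_nonneg_left v1 hφ.le).trans (le_trans ?_ v4)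
  rcases le_or_gt (0.08 * n) g with hc | hc
  · have h1 : 100 * g ≤ φ * M * g := mul_le_mul_of_nonneg_right hM hg0
    have h2 : φ * (1.4144 * n) ≤ 1.4144 * n := mul_le_of_le_one_left (by positivity) hφ1
    linarith
  · have h1 : 0.9 * n ≤ f := by
      by_contra hcon
      push Not at hcon
      have a1 := mul_self_le_mul_self hf0 hcon.le
      have a2 := mul_self_le_mul_self hg0 hc.le
      have a3 : n * n ≤ 0 := by linarith
      have a4 : n = 0 := by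
        have := mul_self_nonneg n
        exact mul_self_eq_zero.1 (le_antisymm a3 this)
      rw [a4] at hcon
      linarith
    have h2 : φ * (M * g + 1.4144 * n) ≤ M * g + 1.4144 * n :=
      mul_le_of_le_one_left (by positivity) hφ1
    have h3 : M * g ≤ M * (0.08 * n) := mul_le_mul_of_nonneg_left hc.le hM0.le
    have h4 : M * (0.9 * n) ≤ M * f := mul_le_mul_of_nonneg_left h1 hM0.le
    have h5 : 100 * n ≤ M * n := mul_le_mul_of_nonneg_right hM100 hn0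
    linarith

end Pool.Agent.H20.RFZ
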