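import Pool.Agent.H98.RFZ.Targets3
import Pool.Agent.H98.RFZ.Targets2b
import Pool.Agent.H98.RFC.Targets

/-!
# Board `rfz_modules`, row QALL: planar couplings have exponential decay at temperature zero
-/

set_option autoImplicit false

open MeasureTheory Filter Topology

namespace Pool.Agent.H20.RFZ

open Pool.Agent.H98.RFZ Pool.Agent.H98.RFC

lemma box_mono {a b : ℕ} (h : a ≤ b) : box a ⊆ box b := by
  intro x hx
  unfold box at hx ⊢
  rw [Finset.mem_product, Finset.mem_Icc, Finset.mem_Icc] at hx ⊢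
  have : (a : ℤ) ≤ b := by exact_mod_cast h
  obtain ⟨⟨h1, h2⟩, h3, h4⟩ := hx
  exact ⟨⟨by linarith, by linarith⟩, by linarith, by linarith⟩

lemma box_card (a : ℕ) : ((box a).card : ℝ) = (2 * (a : ℝ) + 1) ^ 2 := by
  unfold box
  rw [Finset.card_product, Int.card_Icc]
  have : ((a : ℤ) + 1 - -(a : ℤ)).toNat = 2 * a + 1 := by omega
  rw [this]
  push_cast
  ring

lemma self_mem_eb (z : Site) (r : ℕ) : z ∈ eb z r := by
  unfold eb
  rw [Finset.mem_filter]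
  constructor
  · unfold bx
    rw [Finset.mem_product, Finset.mem_Icc, Finset.mem_Icc]
    have : (0 : ℤ) ≤ r := Int.natCast_nonneg r
    exact ⟨⟨by linarith, by linarith⟩, by linarith, by linarith⟩
  · rw [sub_self]
    simp [nsq]

/-- distances in the large box -/
lemma far_le {a : ℕ} {x z : Site} (hx : x ∈ box (8 * a)) (hz : z ∈ box a) :
    nsq (x - z) ≤ 169 * (a : ℤ) ^ 2 := by
  unfold box at hx hz
  rw [Finset.mem_product, Finset.mem_Icc, Finset.mem_Icc] at hx hz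
  obtain ⟨⟨h1, h2⟩, h3, h4⟩ := hx
  obtain ⟨⟨g1, g2⟩, g3, g4⟩ := hz
  push_cast at h1 h2 h3 h4
  have e1 : (x - z).1 = x.1 - z.1 := rfl
  have e2 : (x - z).2 = x.2 - z.2 := rfl
  unfold nsq
  rw [e1, e2]
  have b1 : (x.1 - z.1) ^ 2 ≤ (9 * (a : ℤ)) ^ 2 := by
    apply sq_le_sq'
    · linarith
    · linarith
  have b2 : (x.2 - z.2) ^ 2 ≤ (9 * (a : ℤ)) ^ 2 := by
    apply sq_le_sq'
    · linarith
    · linarith
  nlinarith [sq_nonneg (a : ℤ)]

/-- no coupling: all capacities vanish -/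
lemma cap_zero {R : ℕ} {J : Site → ℝ} (h : ∀ z, J z = 0) (D : Set Site) (U : Finset Site) :
    cap R J D U = 0 := by
  classical
  unfold cap
  apply Finset.sum_eq_zero
  intro a _
  apply Finset.sum_eq_zero
  intro b _
  rw [h]
  simp

lemma Jt_nonneg {R : ℕ} {J : Site → ℝ} (hJ : IsCoupling R J) : 0 ≤ Jt R J :=
  Finset.sum_nonneg fun z _ => hJ.nonneg z

lemma Jt_zero {R : ℕ} {J : Site → ℝ} (hJ : IsCoupling R J) (h : Jt R J = 0) : ∀ z, J z = 0 := by
  intro z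
  by_cases hz : z ∈ box R
  · have := (Finset.sum_eq_zero_iff_of_nonneg (fun z _ => hJ.nonneg z)).1 h z hz
    exact this
  · exact hJ.range z hz

lemma gam_le_one (S : Set (Site → ℝ)) [IsProbabilityMeasure gam] : (gam S).toReal ≤ 1 := by
  have h := prob_le_one (μ := gam) (s := S)
  have := ENNReal.toReal_mono ENNReal.one_ne_top h
  simpa using this

instance instGam : IsProbabilityMeasure gam := by
  unfold gam; infer_instance

/-- two disjoint events cannot both be likely -/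
lemma two_events {S T : Set (Site → ℝ)} (hS : 3 / 4 ≤ (gam S).toReal)
    (hT : 9 / 10 ≤ (gam T).toReal) (hmeas : MeasurableSet S) : ∃ η, η ∈ S ∧ η ∈ T := by
  by_contra hcon
  push Not at hcon
  have hsub : T ⊆ Sᶜ := fun η hη hS' => hcon η hS' hη
  have h1 : (gam T).toReal ≤ (gam Sᶜ).toReal :=
    ENNReal.toReal_mono (measure_ne_top _ _) (measure_mono hsub)
  have h2 : (gam Sᶜ).toReal = 1 - (gam S).toReal := by
    have := measureReal_compl (μ := gam) hmeas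
    simpa [Measure.real] using this
  linarith


/-- Planar couplings: exponential decay at temperature zero. -/
theorem pf_QALL (hSTR : B_STRk) (hRNG : Q_RNG) (hSHD : Q_SHD) (hCZ : Q_CZ) (hPOS : Q_POS)
    (hUP : Q_UP) (hTYP : Q_TYP) (hLOW : Q_LOW) (hINT : Q_INT) (hTALL : T_ALL)
    (hTEN : Z_TEN) : Q_ALL := by
  intro R J hJ hTri ε hε
  by_contra hnot
  -- the range is positive
  have hR : 1 ≤ R := by
    by_contra hc
    have hR0 : R = 0 := by omega
    subst hR0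
    have h := (hTALL 0).2.1 J hJ 0 ε le_rfl hnot 0
    norm_num at h
  have hR1 : (1 : ℝ) ≤ R := by exact_mod_cast hR
  obtain ⟨φ, hφ, hφ1, hstr⟩ := hSTR R J hJ ε hε hnot
  obtain ⟨M₁, hM₁⟩ := hRNG φ hφ hφ1
  obtain ⟨M, hMM₁, hMc, hM30⟩ : ∃ M : ℕ, M₁ ≤ M ∧ ⌈100 / φ⌉₊ ≤ M ∧ 30 ≤ M :=
    ⟨max M₁ (max ⌈100 / φ⌉₊ 30), le_max_left _ _, (le_max_left _ _).trans (le_max_right _ _),
      (le_max_right _ _).trans (le_max_right _ _)⟩
  have hMφ : 100 / φ ≤ (M : ℝ) := by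
    have h1 : (⌈100 / φ⌉₊ : ℝ) ≤ M := by exact_mod_cast hMc
    exact (Nat.le_ceil _).trans h1
  obtain ⟨C, hC⟩ : ∃ C : ℕ, C = M + 100 := ⟨_, rfl⟩
  obtain ⟨C₄, hC₄, hUP'⟩ := hUP
  obtain ⟨δ₀, hδ₀, hδ₀1, n₁, hUPn⟩ := hUP' C (by omega)
  have hJt0 := Jt_nonneg hJ
  obtain ⟨A, hA⟩ : ∃ A : ℝ, A = 400 * (C : ℝ) ^ 2 * R * Jt R J * (C₄ + 1) / (ε * δ₀ ^ 2) + 1 :=
    ⟨_, rfl⟩
  have hA0 : 0 < A := by rw [hA]; positivity
  obtain ⟨n₂, hLOWn⟩ := hLOW R J hJ hR hTri δ₀ A C C (by omega) le_rfl hδ₀ hδ₀1 hA0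
  obtain ⟨n, hn₁, hn₂, hn1⟩ : ∃ n : ℕ, n₁ ≤ n ∧ n₂ ≤ n ∧ 1 ≤ n :=
    ⟨max (max n₁ n₂) 1, (le_max_left _ _).trans (le_max_left _ _),
      (le_max_right n₁ n₂).trans (le_max_left _ _), le_max_right _ _⟩
  have hnr : (1 : ℝ) ≤ n := by exact_mod_cast hn1
  obtain ⟨K', hK'⟩ : ∃ K' : ℕ, K' = 13 * n + M + 200 := ⟨_, rfl⟩
  -- the parameter `δ`
  obtain ⟨E, hE⟩ : ∃ E : ℝ, E = Real.exp (9 / 2 * A ^ 2) := ⟨_, rfl⟩
  have hE0 : 0 < E := by rw [hE]; exact Real.exp_pos _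
  obtain ⟨w, hw⟩ : ∃ w : ℝ, w = δ₀ ^ 2 / (12800 * E) := ⟨_, rfl⟩
  have hw0 : 0 < w := by rw [hw]; positivity
  obtain ⟨δ, hδ0, hδ1, hδw', hδδ⟩ : ∃ δ : ℝ, 0 < δ ∧ δ < 1 ∧ δ ≤ w ^ 2 ∧ δ₀ < 1 - δ := by
    refine ⟨min (w ^ 2) ((1 - δ₀) / 2), lt_min (by positivity) (by linarith), ?_,
      min_le_left _ _, ?_⟩
    · exact (min_le_right _ _).trans_lt (by linarith)
    · have h1 : min (w ^ 2) ((1 - δ₀) / 2) ≤ (1 - δ₀) / 2 := min_le_right _ _
      linarith
  have hδw : Real.sqrt δ ≤ w := by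
    rw [Real.sqrt_le_left hw0.le]
    exact hδw'
  obtain ⟨u₀, hu₀⟩ := hstr M K' δ hMφ (by omega) (by omega) hδ0 hδ1
  obtain ⟨u, hu0', hu1⟩ : ∃ u : ℕ, u₀ ≤ u ∧ 10 * R + 100 ≤ u :=
    ⟨max u₀ (10 * R + 100), le_max_left _ _, le_max_right _ _⟩
  obtain ⟨v₁, v₂, hv₁, hv₂, hang, hp₁, hp₂⟩ := hu₀ u hu0'
  have hur : (1 : ℝ) ≤ u := by
    have : 1 ≤ u := by omega
    exact_mod_cast this
  -- the quantile
  obtain ⟨hc1, hc2, _, _, _, hc6⟩ := hCZ R J hJ ε u C 0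
  obtain ⟨c, hc0, hcu, hcl⟩ := hTYP (fun η => cz R J (fun x => ε * η x) u C 0) hc1 hc2 δ₀ hδ₀
    hδ₀1
  have hcrs : {η : Site → ℝ | Crs R J (fun x => ε * η x) u v₁ K' 0} ⊆
      {η | 0 < cz R J (fun x => ε * η x) u C 0} := by
    intro η hη
    exact hPOS R J hJ _ M K' u C v₁ hM30 hv₁ (by omega) (by omega) (by omega) hη
  have hpos : δ₀ < (gam {η | 0 < cz R J (fun x => ε * η x) u C 0}).toReal := by
    have h1 : pC R J ε u v₁ K' ≤ (gam {η | 0 < cz R J (fun x => ε * η x) u C 0}).toReal :=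
      ENNReal.toReal_mono (measure_ne_top _ _) (measure_mono hcrs)
    linarith
  have hcpos : 0 < c := by
    rcases hc0.eq_or_lt with h | h
    · rw [← h] at hcu
      linarith
    · exact h
  -- the total coupling is positive
  have hJt : 0 < Jt R J := by
    rcases hJt0.eq_or_lt with h | h
    · exfalso
      have hz := Jt_zero hJ h.symm
      have he : {η : Site → ℝ | 0 < cz R J (fun x => ε * η x) u C 0} = ∅ := by
        ext η
        constructor
        · intro hη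
          obtain ⟨U, _, _, hU⟩ := hc6 η
          rw [cap_zero hz] at hU
          have hη' : 0 < cz R J (fun x => ε * η x) u C 0 := hη
          rw [← hU] at hη'
          exact absurd hη' (lt_irrefl _)
        · intro h
          exact absurd h (Set.notMem_empty η)
      rw [he, measure_empty] at hpos
      simp at hpos
      linarith
    · exact h
  -- upper bound for the tension
  have hten1 := hUPn n hn₁ R J hJ ε c u hc0 (by omega) hcu
  -- the shields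
  obtain ⟨V, hV⟩ : ∃ V : Finset Site, V = box (n * u) := ⟨_, rfl⟩
  obtain ⟨Λ, hΛ⟩ : ∃ Λ : Finset Site, Λ = box (8 * (n * u)) := ⟨_, rfl⟩
  rw [← hV, ← hΛ] at hten1
  have hVΛ : V ⊆ Λ := by rw [hV, hΛ]; exact box_mono (by omega)
  have hnu : (1 : ℝ) ≤ (n : ℝ) * u := one_le_mul_of_one_le_of_one_le hnr hur
  have hshield : ∀ s : ℝ, |s| ≤ A / (n * u) → ∀ z : Site, eb z (C * u) ⊆ V →
      (gam {η | ¬ Shield (Ds R J (fun x => ε * shf V s η x) Λ) z u C}).toReal ≤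
        δ₀ ^ 2 / 3200 := by
    intro s hs z hz
    have hzV : z ∈ V := hz (self_mem_eb z _)
    have h1 := hSHD R J hJ hTri ε φ δ s M K' u v₁ v₂ z V Λ hφ hφ1 (hM₁ M hMM₁) hv₁ hv₂ hang
      (by omega) hδ0.le hp₁.le hp₂.le (by rw [← hC]; exact hz.trans hVΛ) (by
        intro x hx
        rw [hΛ] at hx
        rw [hV] at hzV
        have h2 := far_le hx hzV
        have e1 : ((K' : ℤ) - M - 200) = 13 * n := by rw [hK']; push_cast; ring
        have e2 : (13 * (n : ℤ)) ^ 2 * (u : ℤ) ^ 2 = 169 * (((n * u : ℕ) : ℤ)) ^ 2 := by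
          push_cast; ring
        rw [e1, e2]
        exact h2) (by omega)
    rw [← hC] at h1
    refine h1.trans ?_
    have h3 : s ^ 2 * (V.card : ℝ) / 2 ≤ 9 / 2 * A ^ 2 := by
      rw [hV, box_card]
      push_cast
      have h4 : s ^ 2 ≤ (A / (n * u)) ^ 2 := by
        rw [← sq_abs s]
        exact pow_le_pow_left₀ (abs_nonneg _) hs 2
      have h5 : (2 * ((n : ℝ) * u) + 1) ^ 2 ≤ (3 * ((n : ℝ) * u)) ^ 2 :=
        pow_le_pow_left₀ (by positivity) (by linarith) 2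
      have h6 : s ^ 2 * (2 * ((n : ℝ) * u) + 1) ^ 2 ≤
          (A / (n * u)) ^ 2 * (3 * ((n : ℝ) * u)) ^ 2 :=
        mul_le_mul h4 h5 (by positivity) (by positivity)
      have h7 : (A / (n * u)) ^ 2 * (3 * ((n : ℝ) * u)) ^ 2 = 9 * A ^ 2 := by
        field_simp
        ring
      linarith
    have h8 : Real.exp (s ^ 2 * (V.card : ℝ) / 2) ≤ E := by
      rw [hE]; exact Real.exp_le_exp.2 h3
    have h9 : Real.exp (s ^ 2 * (V.card : ℝ) / 2) * Real.sqrt δ ≤ E * w :=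
      mul_le_mul h8 hδw (Real.sqrt_nonneg _) hE0.le
    have h10 : E * w = δ₀ ^ 2 / 12800 := by
      rw [hw]; field_simp
    rw [h10] at h9
    linarith
  -- lower bound for the disagreement set
  obtain ⟨Y, hY⟩ : ∃ Y : ℝ, Y = δ₀ ^ 2 / 8 * ((n : ℝ) ^ 2 / (100 * (C : ℝ) ^ 2)) *
    (c * u / (R * Jt R J)) := ⟨_, rfl⟩
  have hCr : (0 : ℝ) < C := by
    have : 0 < C := by omega
    exact_mod_cast this
  have hY0 : 0 ≤ Y := by rw [hY]; positivity
  have hlow : ∀ s : ℝ, |s| ≤ A / (n * u) → 49 / 50 ≤ (gam {η |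
      Y ≤ ((Ds R J (fun x => ε * shf V s η x) Λ ∩ V).card : ℝ)}).toReal := by
    intro s hs
    have hsh := hshield s hs
    rw [hY, hV, hΛ]
    rw [hV, hΛ] at hsh
    exact hLOWn n hn₂ ε c s u hcpos (by omega) hs hcl hsh
  have hτ : 0 < A / ((n : ℝ) * u) := by positivity
  have hten2 := hINT R J hJ ε Y (A / (n * u)) V Λ hε hτ hY0 hVΛ hlow
  -- contradiction
  have hmeas : MeasurableSet {η : Site → ℝ | ten R J (fun x => ε * η x) V Λ ≤ C₄ * n * c} := by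
    have h1 : Measurable (fun η : Site → ℝ => (fun x => ε * η x : Site → ℝ)) := by
      rw [measurable_pi_iff]
      intro x
      have h0 : Measurable (fun η : Site → ℝ => η x) := measurable_pi_apply x
      exact h0.const_mul ε
    have h2 := ((hTEN R J hJ V Λ hVΛ).2.2).comp h1
    exact measurableSet_le h2 measurable_const
  obtain ⟨η, h1, h2⟩ := two_events hten1 hten2 hmeas
  have h3 : 2 * ε * (A / (n * u)) * Y ≤ C₄ * n * c := le_trans h2 h1
  have h4 : 2 * ε * (A / (n * u)) * Y =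
      (A * (ε * δ₀ ^ 2) / (400 * (C : ℝ) ^ 2 * R * Jt R J)) * (n * c) := by
    rw [hY]
    field_simp
    ring
  have h5 : C₄ + 1 ≤ A * (ε * δ₀ ^ 2) / (400 * (C : ℝ) ^ 2 * R * Jt R J) := by
    rw [le_div_iff₀ (by positivity)]
    have h6 : 400 * (C : ℝ) ^ 2 * R * Jt R J * (C₄ + 1) / (ε * δ₀ ^ 2) ≤ A := by
      rw [hA]; linarith
    rw [div_le_iff₀ (by positivity)] at h6
    linarith
  have hnc : 0 < (n : ℝ) * c := by positivity
  rw [h4] at h3
  have h7 := mul_le_mul_of_nonneg_right h5 hnc.le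
  linarith

end Pool.Agent.H20.RFZ
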