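import Pool.Agent.H98.RFZ.Targets3
import Pool.Agent.H98.RFC.Targets

/-!
# Board `rfz_modules`, row QCZ: basic properties of the minimal capacity `cz`
-/

set_option autoImplicit false

open MeasureTheory Filter Topology

namespace Pool.Agent.H20.RFZ

open Pool.Agent.H98.RFZ Pool.Agent.H98.RFC

/-- the family of the sets in the definition of `cz` -/
noncomputable def fam (u : ℕ) (z : Site) : Finset (Finset Site) :=
  (eb z (10 * u)).powerset.filter (fun U => eb z (5 * u) ⊆ U ∨ U = eb z (10 * u))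

lemma mem_fam {u : ℕ} {z : Site} {U : Finset Site} :
    U ∈ fam u z ↔ U ⊆ eb z (10 * u) ∧ (eb z (5 * u) ⊆ U ∨ U = eb z (10 * u)) := by
  unfold fam
  rw [Finset.mem_filter, Finset.mem_powerset]

lemma cz_le {R : ℕ} {J h : Site → ℝ} {u C : ℕ} {z : Site} {U : Finset Site} (hU : U ∈ fam u z) :
    cz R J h u C z ≤ cap R J ↑(Ds R J h (eb z (C * u))) U :=
  Finset.inf'_le _ hU

lemma cz_exists (R : ℕ) (J h : Site → ℝ) (u C : ℕ) (z : Site) :
    ∃ U ∈ fam u z, cz R J h u C z = cap R J ↑(Ds R J h (eb z (C * u))) U := by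
  obtain ⟨U, hU, h⟩ := Finset.exists_mem_eq_inf' (s := fam u z)
    ⟨eb z (10 * u), mem_fam.2 ⟨subset_rfl, Or.inr rfl⟩⟩
    (fun U => cap R J ↑(Ds R J h (eb z (C * u))) U)
  exact ⟨U, hU, h⟩

lemma cap_nonneg {R : ℕ} {J : Site → ℝ} (hJ : IsCoupling R J) (D : Set Site) (U : Finset Site) :
    0 ≤ cap R J D U := by
  classical
  unfold cap
  apply Finset.sum_nonneg
  intro a _
  apply Finset.sum_nonneg
  intro b _
  split_ifs
  · exact hJ.nonneg _
  · exact le_rfl

/-! ### translations -/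

lemma mem_bx_add {z x y : Site} {r : ℕ} : z + x ∈ bx (z + y) r ↔ x ∈ bx y r := by
  unfold bx
  rw [Finset.mem_product, Finset.mem_product, Finset.mem_Icc, Finset.mem_Icc, Finset.mem_Icc,
    Finset.mem_Icc]
  have e1 : (z + x).1 = z.1 + x.1 := rfl
  have e2 : (z + x).2 = z.2 + x.2 := rfl
  have e3 : (z + y).1 = z.1 + y.1 := rfl
  have e4 : (z + y).2 = z.2 + y.2 := rfl
  rw [e1, e2, e3, e4]
  constructor
  · rintro ⟨⟨h1, h2⟩, h3, h4⟩
    exact ⟨⟨by linarith, by linarith⟩, by linarith, by linarith⟩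
  · rintro ⟨⟨h1, h2⟩, h3, h4⟩
    exact ⟨⟨by linarith, by linarith⟩, by linarith, by linarith⟩

lemma mem_eb_add {z x : Site} {r : ℕ} : z + x ∈ eb z r ↔ x ∈ eb 0 r := by
  unfold eb
  rw [Finset.mem_filter, Finset.mem_filter]
  have h1 : z + x ∈ bx z r ↔ x ∈ bx 0 r := by
    have := mem_bx_add (z := z) (x := x) (y := 0) (r := r)
    rwa [add_zero] at this
  rw [h1, add_sub_cancel_left, sub_zero]

/-- translated set -/
def tl (z : Site) (S : Finset Site) : Finset Site := S.image (fun x => z + x)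

lemma mem_tl {z x : Site} {S : Finset Site} : z + x ∈ tl z S ↔ x ∈ S := by
  unfold tl
  rw [Finset.mem_image]
  constructor
  · rintro ⟨y, hy, h⟩
    have : y = x := add_left_cancel h
    rwa [← this]
  · intro h
    exact ⟨x, h, rfl⟩

lemma mem_tl' {z x : Site} {S : Finset Site} : x ∈ tl z S ↔ x - z ∈ S := by
  have h := mem_tl (z := z) (x := x - z) (S := S)
  rwa [add_sub_cancel] at h

lemma eb_tl (z : Site) (r : ℕ) : eb z r = tl z (eb 0 r) := by
  ext x
  rw [mem_tl', ← mem_eb_add (z := z), add_sub_cancel]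

lemma tl_subset {z : Site} {S T : Finset Site} : tl z S ⊆ tl z T ↔ S ⊆ T := by
  constructor
  · intro h x hx
    exact mem_tl.1 (h (mem_tl.2 hx))
  · intro h x hx
    rw [mem_tl'] at hx ⊢
    exact h hx

lemma tl_neg (z : Site) (S : Finset Site) : tl z (tl (-z) S) = S := by
  ext x
  rw [mem_tl', mem_tl', sub_neg_eq_add, sub_add_cancel]

lemma fam_tl {u : ℕ} {z : Site} {U : Finset Site} : tl z U ∈ fam u z ↔ U ∈ fam u 0 := by
  rw [mem_fam, mem_fam, eb_tl z, eb_tl z, tl_subset, tl_subset]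
  have h : tl z U = tl z (eb 0 (10 * u)) ↔ U = eb 0 (10 * u) := by
    constructor
    · intro h
      exact Finset.Subset.antisymm (tl_subset.1 h.subset) (tl_subset.1 h.superset)
    · rintro rfl; rfl
  rw [h]

lemma hull_tl (R : ℕ) (z : Site) (U : Finset Site) : hull R (tl z U) = tl z (hull R U) := by
  ext x
  rw [mem_tl']
  unfold hull
  rw [Finset.mem_biUnion, Finset.mem_biUnion]
  constructor
  · rintro ⟨a, ha, hx⟩
    rw [mem_tl'] at ha
    refine ⟨a - z, ha, ?_⟩
    rw [← mem_bx_add (z := z), add_sub_cancel, add_sub_cancel]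
    exact hx
  · rintro ⟨a, ha, hx⟩
    refine ⟨z + a, mem_tl.2 ha, ?_⟩
    rw [← mem_bx_add (z := z), add_sub_cancel] at hx
    exact hx

lemma sdiff_tl (z : Site) (S T : Finset Site) : tl z S \ tl z T = tl z (S \ T) := by
  ext x
  rw [Finset.mem_sdiff, mem_tl', mem_tl', mem_tl', Finset.mem_sdiff]

lemma sum_tl (z : Site) (S : Finset Site) (f : Site → ℝ) :
    ∑ x ∈ tl z S, f x = ∑ x ∈ S, f (z + x) := by
  unfold tl
  rw [Finset.sum_image]
  intro a _ b _ h
  exact add_left_cancel h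

lemma cap_tl (R : ℕ) (J : Site → ℝ) (z : Site) (D U : Finset Site) :
    cap R J ↑(tl z D) (tl z U) = cap R J ↑D U := by
  classical
  unfold cap
  rw [sum_tl]
  apply Finset.sum_congr rfl
  intro a _
  rw [hull_tl, sdiff_tl, sum_tl]
  apply Finset.sum_congr rfl
  intro b _
  have h : (z + a ∈ (↑(tl z D) : Set Site) ∧ z + b ∈ (↑(tl z D) : Set Site)) ↔
      (a ∈ (↑D : Set Site) ∧ b ∈ (↑D : Set Site)) := by
    rw [Finset.mem_coe, Finset.mem_coe, Finset.mem_coe, Finset.mem_coe, mem_tl, mem_tl]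
  rw [add_sub_add_left_eq_sub]
  by_cases hh : a ∈ (↑D : Set Site) ∧ b ∈ (↑D : Set Site)
  · rw [if_pos hh, if_pos (h.2 hh)]
  · rw [if_neg hh, if_neg (fun c => hh (h.1 c))]

lemma cz_tl (hTRA : Z_TRA) (R : ℕ) (J h : Site → ℝ) (u C : ℕ) (z : Site) :
    cz R J h u C z = cz R J (fun x => h (z + x)) u C 0 := by
  have hD : Ds R J h (eb z (C * u)) = tl z (Ds R J (fun x => h (z + x)) (eb 0 (C * u))) := by
    rw [eb_tl z]
    exact hTRA R J h (eb 0 (C * u)) z
  apply le_antisymm
  · obtain ⟨U, hU, h1⟩ := cz_exists R J (fun x => h (z + x)) u C 0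
    rw [h1, ← cap_tl R J z, ← hD]
    exact cz_le (fam_tl.2 hU)
  · obtain ⟨U, hU, h1⟩ := cz_exists R J h u C z
    rw [h1, hD]
    have e : U = tl z (tl (-z) U) := (tl_neg z U).symm
    rw [e, cap_tl]
    apply cz_le
    rw [e] at hU
    exact fam_tl.1 hU

theorem pf_QCZ (hMEA : Z_MEA) (hLOC : Z_LOC) (hTRA : Z_TRA) (hTRG : T_TRG) : Q_CZ := by
  intro R J hJ ε u C z
  have hmeas : ∀ y : Site, Measurable (fun η : Site → ℝ => cz R J (fun x => ε * η x) u C y) := by
    intro y
    have h1 : Measurable (fun η : Site → ℝ => (fun x => ε * η x : Site → ℝ)) := by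
      rw [measurable_pi_iff]
      intro x
      have h0 : Measurable (fun η : Site → ℝ => η x) := measurable_pi_apply x
      exact h0.const_mul ε
    let m : MeasurableSpace (Finset Site) := ⊤
    have h2 : Measurable (fun h : Site → ℝ => Ds R J h (eb y (C * u))) := by
      apply measurable_to_countable'
      intro S
      exact hMEA R J (eb y (C * u)) S
    have h3 : Measurable (fun D : Finset Site => (fam u y).inf'
        ⟨eb y (10 * u), mem_fam.2 ⟨subset_rfl, Or.inr rfl⟩⟩ (fun U => cap R J ↑D U)) :=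
      measurable_from_top
    exact h3.comp (h2.comp h1)
  have hshift : ∀ (S : Set ℝ), MeasurableSet S →
      gam {η | cz R J (fun x => ε * η x) u C z ∈ S} =
        gam {η | cz R J (fun x => ε * η x) u C 0 ∈ S} := by
    intro S hS
    have hm : MeasurableSet {η : Site → ℝ | cz R J (fun x => ε * η x) u C 0 ∈ S} :=
      hmeas 0 hS
    have hsh : Measurable (fun (η : Site → ℝ) (x : Site) => η (z + x)) := by
      rw [measurable_pi_iff]
      intro x
      exact measurable_pi_apply (z + x)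
    have e1 : {η : Site → ℝ | cz R J (fun x => ε * η x) u C z ∈ S} =
        (fun (η : Site → ℝ) (x : Site) => η (z + x)) ⁻¹'
          {η : Site → ℝ | cz R J (fun x => ε * η x) u C 0 ∈ S} := by
      ext η
      simp only [Set.mem_setOf_eq, Set.mem_preimage]
      rw [cz_tl hTRA R J (fun x => ε * η x) u C z]
    rw [e1, ← Measure.map_apply hsh hm, hTRG z]
  refine ⟨hmeas z, ?_, ?_, ?_, ?_, ?_⟩
  · intro η
    obtain ⟨U, _, h1⟩ := cz_exists R J (fun x => ε * η x) u C z
    rw [h1]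
    exact cap_nonneg hJ _ _
  · intro η η' h
    have hD : Ds R J (fun x => ε * η x) (eb z (C * u)) =
        Ds R J (fun x => ε * η' x) (eb z (C * u)) :=
      hLOC R J _ _ _ (fun x hx => by rw [h x hx])
    unfold cz
    rw [hD]
  · intro c
    exact hshift (Set.Ioi c) measurableSet_Ioi
  · intro c
    exact hshift (Set.Ici c) measurableSet_Ici
  · intro η
    obtain ⟨U, hU, h1⟩ := cz_exists R J (fun x => ε * η x) u C z
    obtain ⟨h2, h3⟩ := mem_fam.1 hU
    refine ⟨U, ?_, h2, h1.symm⟩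
    rcases h3 with h3 | h3
    · exact h3
    · rw [h3]
      intro x hx
      unfold eb at hx ⊢
      rw [Finset.mem_filter] at hx ⊢
      unfold bx at hx ⊢
      rw [Finset.mem_product, Finset.mem_Icc, Finset.mem_Icc] at hx ⊢
      obtain ⟨⟨⟨a1, a2⟩, a3, a4⟩, a5⟩ := hx
      have hu : (0 : ℤ) ≤ u := Int.natCast_nonneg u
      push_cast at a1 a2 a3 a4 a5 ⊢
      refine ⟨⟨⟨by linarith, by linarith⟩, by linarith, by linarith⟩, by nlinarith⟩

end Pool.Agent.H20.RFZ
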